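import Pool.Agent.H5.RPG.Stmts

set_option autoImplicit false

namespace Pool.RPG

open Classical in
/-- Row `LRG`: if the graph is not bad, the attractors are large. -/
theorem lrg5_thm (h1 : RCLStmt) (h2 : SNKStmt) : LRGStmt := by
  intro n d δ κ i o e s hκ hδ hcard hbad
  obtain ⟨hKR, hcl, -, -⟩ := h1 (Fin n) (Fin d) i o e s ∅
  set Rs : Set (Fin n) := RS i o e s ∅ with hRs
  set Z : Finset (Fin n) := Finset.univ.filter fun v => v ∉ Rs with hZ
  set O : Finset (Fin n) := Finset.univ.filter fun v => o v = i with hO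
  by_contra hlt
  rw [not_le] at hlt
  have hn : ∀ T : Finset (Fin n), (T.card : ℝ) ≤ n := by
    intro T
    have := Finset.card_le_univ T
    rw [Fintype.card_fin] at this
    exact_mod_cast this
  -- inclusion-exclusion
  have hie : ∀ S T : Finset (Fin n), (S.card : ℝ) + T.card ≤ (S ∩ T).card + n := by
    intro S T
    have h := Finset.card_union_add_card_inter S T
    have h' : ((S ∪ T).card : ℝ) ≤ n := hn _
    have h'' : ((S ∪ T).card : ℝ) + (S ∩ T).card = S.card + T.card := by exact_mod_cast h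
    linarith
  have hA : κ * n < ((Z ∩ O).card : ℝ) := by
    have := hie Z O
    nlinarith
  have hAZ : ∀ v ∈ Z ∩ O, ∀ j, s v j ∈ Z := by
    intro v hv j
    rw [Finset.mem_inter, hZ, hO, Finset.mem_filter, Finset.mem_filter] at hv
    obtain ⟨⟨-, hv1⟩, -, hv2⟩ := hv
    rw [hZ, Finset.mem_filter]
    refine ⟨Finset.mem_univ _, fun hj => hv1 ?_⟩
    refine hcl v (by simp) ?_
    unfold Pre
    rw [if_pos hv2]
    exact ⟨j, hj⟩
  by_cases hZk : (Z.card : ℝ) ≤ (1 - κ) * n
  · exact hbad ⟨Z ∩ O, Z, hA.le, hZk, hAZ⟩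
  rw [not_le] at hZk
  set G : Finset (Fin n) := Finset.univ.filter fun v => o v = i ∧ e v = i with hG
  set B : Finset (Fin n) := Z ∩ G with hB
  have hBc : (δ - κ) * n < (B.card : ℝ) := by
    have := hie Z G
    nlinarith
  have hB2 : 2 * κ * n + 2 < (B.card : ℝ) := by nlinarith
  set m : ℕ := ⌈κ * n⌉₊ with hm
  have hn0 : (0 : ℝ) ≤ n := Nat.cast_nonneg n
  have hm1 : κ * n ≤ m := Nat.le_ceil _
  have hm2 : (m : ℝ) < κ * n + 1 := Nat.ceil_lt_add_one (by positivity)
  have hmB : m ≤ B.card := by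
    have : (m : ℝ) ≤ B.card := by nlinarith
    exact_mod_cast this
  have hsink : ∀ S ⊆ B, S.Nonempty → ∃ v ∈ S, ∀ j, s v j ∉ S := by
    intro S hS hne
    by_contra hcon
    push Not at hcon
    obtain ⟨v, hv⟩ := hne
    have hvK : v ∈ KS i o e s ∅ := by
      refine ⟨(S : Set (Fin n)), Finset.mem_coe.2 hv, fun u hu => ?_⟩
      have hu' := hS (Finset.mem_coe.1 hu)
      rw [hB, Finset.mem_inter] at hu'
      have hu2 := (Finset.mem_filter.1 hu'.2).2
      obtain ⟨j, hj⟩ := hcon u (Finset.mem_coe.1 hu)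
      exact ⟨by simp, hu2.1, hu2.2, j, Finset.mem_coe.2 hj⟩
    have hvR := hKR hvK
    have hvZ := hS hv
    rw [hB, Finset.mem_inter, hZ, Finset.mem_filter] at hvZ
    exact hvZ.1.2 hvR
  obtain ⟨B₁, hB₁, hcB, hno⟩ := h2 (Fin n) (Fin d) s B hsink m hmB
  refine hbad ⟨B₁, (B \ B₁)ᶜ, by rw [hcB]; exact hm1, ?_, ?_⟩
  · have hc1 : (B \ B₁).card = B.card - m := by
      rw [Finset.card_sdiff_of_subset hB₁, hcB]
    have hc2 : ((B \ B₁)ᶜ.card : ℝ) = n - (B.card - m) := by
      rw [Finset.card_compl, Fintype.card_fin, hc1, Nat.cast_sub, Nat.cast_sub hmB]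
      have : B.card ≤ n := by simpa using Finset.card_le_univ B
      omega
    rw [hc2]
    nlinarith
  · intro v hv j
    rw [Finset.mem_compl]
    exact hno v hv j

end Pool.RPG
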