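import Pool.Agent.H59.PG.AllC
import Pool.Agent.H1.RPG.CNU
import Pool.Agent.H1.RPG.FUB
import Pool.Agent.H17.RPG.CMB
import Pool.Agent.H17.RPG.RLC
import Pool.Agent.H2.RPG.SUM
import Pool.Agent.H2.RPG.WNU
import Pool.Agent.H23.RPG.KIT
import Pool.Agent.H24.RPG.CNT
import Pool.Agent.H25.RPG.NUM
import Pool.Agent.H3.RPG.CNB
import Pool.Agent.H36.RPG.WNK
import Pool.Agent.H40.RPG.PTM
import Pool.Agent.H46.RPG.RCL
import Pool.Agent.H48.RPG.BRI
import Pool.Agent.H49.RPG.SNK
import Pool.Agent.H52.RPG.MAI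
import Pool.Agent.H53.RPG.RRE
import Pool.Agent.H55.RPG.SND
import Pool.Agent.H5.RPG.LRG
import Pool.Agent.H62.RPG.USU
import Pool.Agent.H66.RPG.WNR
import Pool.Agent.H67.RPG.RIT
import Pool.Agent.H87.RPG.CNA
import Pool.Agent.H87.RPG.CNP

/-!
# Parity games with random successors: assembly
-/

set_option autoImplicit false

namespace Pool.RPG

open Pool.PG

theorem wnk_all : WNKStmt := wnk_thm kit_thm sol_all

theorem wnr_all : WNRStmt := wnr_thm rit_thm wnk_all sol_all

theorem wnu_all : WNUStmt := wnu_thm wnr_all (usu_thm rit_thm) (evd_row sol_all) sol_all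

theorem snd_all : SNDStmt := snd_thm rit_thm wnr_all wnu_all sol_all

theorem ptm_all : PTMStmt := ptm_thm pv1_row pev_all

theorem cmb_all : CMBStmt := cmb_thm (bri_thm kit_thm rit_thm)

theorem cnu_all : CNUStmt := cnu_thm rcl_thm rlc_thm (rre_thm rcl_thm) cnp_thm fub_thm

theorem cnt_all : CNTStmt := cnt_thm (lrg5_thm rcl_thm snk_thm) (cnb_thm cna_thm) cnu_all sum_thm num_thm

theorem mai_all : MAIStmt := mai_thm snd_all ptm_all cmb_all cnt_all bot_all cmw

end Pool.RPG
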