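import Pool.Agent.H59.PG.Defs

/-!
# Parity games with random successors: definition
-/

set_option autoImplicit false

namespace Pool.RPG

open Pool.PG

/-- The parity game with the vertices `0, ..., n - 1`, the owners `o`, the priorities `p` and the
successors `s v 0, ..., s v (d - 1)` of the vertex `v`. -/
def arena {n d : ℕ} (o : Fin n → Bool) (p : Fin n → ℕ) (s : Fin n → Fin d → Fin n) : Game :=
  List.ofFn fun v => ((o v, p v), List.ofFn fun j => (s v j : ℕ))

end Pool.RPG
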