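import Pool.Agent.H5.RPG.Defs
import Pool.Agent.H59.PG.BinDefs

/-!
# Parity games with random successors: the algorithm and the statements of the rows (board `rpg`)

THEOREM.  There is a polynomial time algorithm which is never wrong and which, for all
`14 ≤ δ ^ 2 * d`, solves all but a proportion `C / n` of the games with `n` vertices and `d`
successors (independent, uniform) of every vertex, for ALL owners and priorities such that at least
`δ n` vertices are owned by `◇` and have an even priority and at least `δ n` vertices are owned by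
`□` and have an odd priority.

Algorithm: `K i` = own vertices of `i` with a good priority from which `i` can stay in such vertices
for ever; `R i` = attractor of `i` to `K i`; `U` = the vertices neither in `R true` nor in `R false`.
If every vertex of `U` has only one successor in `U`, the play in `U` decides; otherwise the answer
is the empty list.

Row `XXX` is a theorem `Pool.RPG.xxx_thm (h1 : AAAStmt) ... : XXXStmt` (the needs of the row in the
order of the table; unused ones may be dropped) in `Pool/Agent/H<k>/RPG/XXX.lean`.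
-/

set_option autoImplicit false

namespace Pool.RPG

open Filter TMLib Pool.PG

/-! ## The algorithm -/

/-- Own vertices of the player `i` with a good priority. -/
def q0 (i : Bool) (g : Game) : List Bool :=
  (List.range g.length).map fun v => (own g v == i) && (evb (pri g v) == i)

/-- The vertices of `S` which have a successor in `S`. -/
def kst (g : Game) (S : List Bool) : List Bool :=
  (List.range g.length).map fun v => S.getD v false && (suc g v).any fun w => S.getD w false

/-- Own vertices of `i` with a good priority from which `i` can stay in such vertices. -/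
def K (i : Bool) (g : Game) : List Bool := (kst g)^[g.length] (q0 i g)

/-- One step of the attractor. -/
def ast (i : Bool) (g : Game) (T : List Bool) : List Bool :=
  (List.range g.length).map fun v => T.getD v false ||
    (if own g v = i then (suc g v).any fun w => T.getD w false
      else (suc g v).all fun w => T.getD w false)

/-- The attractor of `i` to `K i`. -/
def R (i : Bool) (g : Game) : List Bool := (ast i g)^[g.length] (K i g)

/-- The vertices which are left. -/
def U (g : Game) : List Bool :=
  (List.range g.length).map fun v => !(R true g).getD v false && !(R false g).getD v false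

/-- The successors in `U`. -/
def su (g : Game) (v : ℕ) : List ℕ := (suc g v).filter fun w => (U g).getD w false

/-- Every vertex of `U` has at most one successor in `U`. -/
def good (g : Game) : Bool :=
  (List.range g.length).all fun v =>
    !(U g).getD v false || (su g v).all fun w => w == (su g v).headD 0

/-- The game in which a vertex of `U` has only its successor in `U`. -/
def red (g : Game) : Game :=
  (List.range g.length).map fun v =>
    ((vx g v).1, [if (U g).getD v false = true then (su g v).headD 0 else v])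

/-- The labels; the empty list if the algorithm does not know. -/
def lab (g : Game) : List Bool :=
  if good g = true then (List.range g.length).map fun v =>
    (R true g).getD v false || (!(R false g).getD v false && ev v (red g)) else []

/-! ## Rows about the algorithm -/

/-- **KIT** (70). `K i g` as a greatest fixed point.  (`S_m := (kst g)^[m] (q0 i g)` is decreasing
(pointwise) for `m ≥ 0`; if `S_(m+1) = S_m` it is constant from `m` on; the number of `true` drops
otherwise, so `S_(n+1) = S_n` for `n = g.length`.  For `→` take `S` = the set of `S_n`; for `←` every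
such `S` is contained in all `S_m` by induction.  No hypothesis on `g`: `w` out of range has
`getD = false`.) -/
def KITStmt : Prop :=
  ∀ (g : Game) (i : Bool), (K i g).length = g.length ∧ ∀ v : ℕ,
    (K i g).getD v false = true ↔ ∃ S : Set ℕ, v ∈ S ∧
      ∀ u ∈ S, u < g.length ∧ own g u = i ∧ evb (pri g u) = i ∧ ∃ w ∈ suc g u, w ∈ S

/-- **RIT** (70). `R i g` as a least fixed point.  (As `KIT`: the iterates increase and are constant
after `g.length` steps.  `←`: take for `T` the set of the last iterate; `→`: induction on the number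
of steps, with `T` arbitrary.) -/
def RITStmt : Prop :=
  ∀ (g : Game) (i : Bool), (R i g).length = g.length ∧ ∀ v : ℕ,
    (R i g).getD v false = true ↔ v < g.length ∧ ∀ T : Set ℕ,
      (∀ u, (K i g).getD u false = true → u ∈ T) →
      (∀ u < g.length, (if own g u = i then ∃ w ∈ suc g u, w ∈ T else ∀ w ∈ suc g u, w ∈ T) →
        u ∈ T) → v ∈ T

/-- **WNK** (50, needs KIT, SOL; `SOLStmt`, `EVDStmt`, `PV1Stmt`, `PEVStmt`, `BOTStmt`, `CMWStmt` are
statements of `Pool.PG` which are already proved; take them as hypotheses). The vertices of `K i` are won by `i`.  (If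
`win g v ≠ i`, take a solution `σ`; choose successors in the set `S` of `KIT`: this is a play `x` from
`v` in vertices owned by `i`, so the condition `own (x n) = win g v → ...` is empty, and `x` is won by
the other player; but all priorities seen are good for `i`: the `p` of `WonBy` is `pri g (x n)` for
some `n`, and `evb` is the parity.) -/
def WNKStmt : Prop :=
  ∀ (g : Game) (i : Bool) (v : ℕ), Valid g → (K i g).getD v false = true → win g v = i

/-- **WNR** (30, needs RIT, WNK, SOL). The vertices of `R i` are won by `i`.  (`RIT` with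
`T = {u | win g u = i}`; `stay` and `trap` of the solution; a vertex has a successor.) -/
def WNRStmt : Prop :=
  ∀ (g : Game) (i : Bool) (v : ℕ), Valid g → (R i g).getD v false = true → win g v = i

/-- **USU** (50, needs RIT). The successors of the vertices of `U`: a vertex of `U` owned by `i` has no
successor in `R i`, so all successors are in `U` or in `R (!i)`, and at least one is in `U` (otherwise
all are in `R (!i)`). -/
def USUStmt : Prop :=
  ∀ (g : Game) (v : ℕ), Valid g → v < g.length → (U g).getD v false = true →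
    (∀ w ∈ suc g v, (R (own g v) g).getD w false = false) ∧
    (∀ w ∈ suc g v, (U g).getD w false = true ∨ (R (!own g v) g).getD w false = true) ∧
    ∃ w ∈ suc g v, (U g).getD w false = true

/-- **WNU** (90, needs WNR, USU, EVD, SOL). The labels of the vertices of `U`.  (`h := red g` is valid
and every vertex has one successor, so `win h v = ev v h` by `EVD`, for all `v`.  In `h` the play from
`v` is `x n = (nx h)^[n] v`; for `v` in `U` it stays in `U`, and `nx h u` is THE successor of `u` in
`U`, by `good`.  Let `j := win h v`: `x` is won by `j` in `h`, so in `g` (same priorities).  If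
`win g v = !j`, take a solution `σ` of `g`: at a vertex `x n` owned by `!j = win g (x n)` the successor
`σ (x n)` is won by `!j`, so it is not in `R j` (`WNR`), so it is in `U` (`USU`), so it is
`x (n + 1)`.  By induction `win g (x n) = !j` for all `n` (`stay`, `trap`), so `x` follows `σ` and is
won by `!j` also: contradiction, a sequence is won by only one player.) -/
def WNUStmt : Prop :=
  ∀ (g : Game) (v : ℕ), Valid g → good g = true → v < g.length → (U g).getD v false = true →
    win g v = ev v (red g)

/-- **SND** (30, needs RIT, WNR, WNU, SOL). The labels are right. -/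
def SNDStmt : Prop :=
  ∀ g : Game, Valid g → lab g ≠ [] → (lab g).length = g.length ∧
    ∀ v < g.length, Win g ((lab g).getD v false) v

/-- **PTM** (80, needs PV1, PEV of `Pool.PG`). Polynomial time.  (Combinators of `TM/Lib`, `fun_prop`; for the iterates
`PTime.iter` or `PTime.natRec`: the state is a list of at most `g.length` truth values.) -/
def PTMStmt : Prop :=
  (∀ i : Bool, PTime (K i)) ∧ (∀ i : Bool, PTime (R i)) ∧ PTime good ∧ PTime red ∧ PTime lab

/-! ## Sets of vertices, for a finite type `V` of vertices -/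

/-- The vertices from which `i` can stay outside of `W` in own vertices with a good priority;
`e u` is the player who likes the priority of `u`. -/
def KS {V ι : Type} (i : Bool) (o e : V → Bool) (s : V → ι → V) (W : Set V) : Set V :=
  {v | ∃ S : Set V, v ∈ S ∧ ∀ u ∈ S, u ∉ W ∧ o u = i ∧ e u = i ∧ ∃ j, s u j ∈ S}

/-- `i` can force the next vertex to be in `T`. -/
def Pre {V ι : Type} (i : Bool) (o : V → Bool) (s : V → ι → V) (T : Set V) (u : V) : Prop :=
  if o u = i then ∃ j, s u j ∈ T else ∀ j, s u j ∈ T

/-- The attractor of `i` to `KS` outside of `W`. -/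
def RS {V ι : Type} (i : Bool) (o e : V → Bool) (s : V → ι → V) (W : Set V) : Set V :=
  {v | ∀ T : Set V, KS i o e s W ⊆ T → (∀ u, u ∉ W → Pre i o s T u → u ∈ T) → v ∈ T}

/-- The vertices which are left. -/
def Lf {V ι : Type} (o e : V → Bool) (s : V → ι → V) : Set V :=
  {v | ∀ i : Bool, v ∉ RS i o e s ∅}

/-- The algorithm fails. -/
def Fail {V ι : Type} (o e : V → Bool) (s : V → ι → V) : Prop :=
  ∃ v ∈ Lf o e s, ∃ j k, s v j ∈ Lf o e s ∧ s v k ∈ Lf o e s ∧ s v j ≠ s v k

/-- **BRI** (80, needs KIT, RIT). Lists and sets: `lab g` is empty if and only if the algorithm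
fails.  (`(K i g).getD v = true ↔ ∃ h : v < n, ⟨v, h⟩ ∈ KS i o e s ∅`, the same for `R` and `RS`,
`U` and `Lf`.) -/
def BRIStmt : Prop :=
  ∀ (n d : ℕ) (g : Game) (o e : Fin n → Bool) (s : Fin n → Fin d → Fin n), 0 < n →
    g.length = n → (∀ v : Fin n, own g v = o v ∧ evb (pri g v) = e v ∧
      suc g v = List.ofFn fun j => (s v j : ℕ)) →
    (lab g = [] ↔ Fail o e s)

/-- **CMB** (40, needs BRI). The game `cmp (arena o p s)`.  (`phi g` keeps the parity;
`min w n = w` for the successors.  `evb m = decide (Even m)`.) -/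
def CMBStmt : Prop :=
  ∀ (n d : ℕ) (o : Fin n → Bool) (p : Fin n → ℕ) (s : Fin n → Fin d → Fin n), 0 < n →
    (lab (cmp (arena o p s)) = [] ↔ Fail o (fun v => decide (Even (p v))) s)

/-- **RCL** (30). Basic properties: `KS ⊆ RS`, closedness, disjointness from `W` (take
`T = {v | v ∉ W}`), and `RS` is contained in every closed `T`. -/
def RCLStmt : Prop :=
  ∀ (V ι : Type) (i : Bool) (o e : V → Bool) (s : V → ι → V) (W : Set V),
    KS i o e s W ⊆ RS i o e s W ∧ (∀ u, u ∉ W → Pre i o s (RS i o e s W) u → u ∈ RS i o e s W) ∧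
    (∀ u ∈ RS i o e s W, u ∉ W) ∧
    ∀ T : Set V, KS i o e s W ⊆ T → (∀ u, u ∉ W → Pre i o s T u → u ∈ T) → RS i o e s W ⊆ T

/-- **RLC** (20). Locality: `RS` outside of `W` depends only on the successors of the vertices not in
`W`. -/
def RLCStmt : Prop :=
  ∀ (V ι : Type) (i : Bool) (o e : V → Bool) (s s' : V → ι → V) (W : Set V),
    (∀ v, v ∉ W → s v = s' v) → RS i o e s W = RS i o e s' W

/-- **RRE** (40, needs RCL). If `W` is disjoint from `RS i o e s ∅`, the attractor outside of `W` is
the same.  (`KS .. ∅ ⊆ RS .. ∅` is disjoint from `W`, so `KS .. ∅ = KS .. W` (the witness `S` is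
contained in `KS .. ∅`).  `RS .. W ⊆ RS .. ∅` as the latter is closed.  Conversely `RS .. W` is closed
also at the `u ∈ W`: `Pre (RS .. W) u` implies `Pre (RS .. ∅) u`, so `u ∈ RS .. ∅`, which is
excluded.) -/
def RREStmt : Prop :=
  ∀ (V ι : Type) (i : Bool) (o e : V → Bool) (s : V → ι → V) (W : Set V),
    (∀ v ∈ W, v ∉ RS i o e s ∅) → RS i o e s W = RS i o e s ∅

/-- **SNK** (30). If every nonempty part `S` of `B` has a vertex without successor in `S`, there is
`B₁ ⊆ B` of any size `m ≤ |B|` without edges to `B \ B₁`.  (Induction on `m`: add to `B₁` a vertex of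
`B \ B₁` without successor in `B \ B₁`.) -/
def SNKStmt : Prop :=
  ∀ (V ι : Type) [DecidableEq V] (s : V → ι → V) (B : Finset V),
    (∀ S ⊆ B, S.Nonempty → ∃ v ∈ S, ∀ j, s v j ∉ S) →
    ∀ m ≤ B.card, ∃ B₁ ⊆ B, B₁.card = m ∧ ∀ v ∈ B₁, ∀ j, s v j ∉ B \ B₁

/-- There are a set `A` of at least `κ n` vertices and a set `Z` of at most `(1 - κ) n` vertices which
contains all successors of the vertices of `A`. -/
def Bad {n d : ℕ} (κ : ℝ) (s : Fin n → Fin d → Fin n) : Prop :=
  ∃ A Z : Finset (Fin n), κ * n ≤ A.card ∧ (Z.card : ℝ) ≤ (1 - κ) * n ∧ ∀ v ∈ A, ∀ j, s v j ∈ Z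

open Classical in
/-- **LRG** (80, needs RCL, SNK). If the graph is not bad, the attractors are large.  Let `Z` be the
complement of `RS i`, `α n` the number of vertices owned by `i`; suppose `|Z| > (1 - α + κ) n`, then
the set `A` of the vertices of `Z` owned by `i` has more than `κ n` elements; all their successors are
in `Z` (`Pre`).  (1) `|Z| ≤ (1 - κ) n`: bad with `A`, `Z`.  (2) `|Z| > (1 - κ) n`: let `B` be the set
of the `v ∈ Z` with `o v = i`, `e v = i`; `|B| > (δ - κ) n ≥ 2 κ n + 2`; no nonempty `S ⊆ B` is such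
that all its vertices have a successor in `S` (it would be contained in `KS ⊆ RS`), so `SNK` with
`m = ⌈κ n⌉` gives `B₁`, and the graph is bad with `A = B₁` and `Z' =` the complement of `B \ B₁`. -/
def LRGStmt : Prop :=
  ∀ (n d : ℕ) (δ κ : ℝ) (i : Bool) (o e : Fin n → Bool) (s : Fin n → Fin d → Fin n),
    0 < κ → 3 * κ * n + 2 ≤ δ * n →
    δ * n ≤ (Finset.univ.filter fun v => o v = i ∧ e v = i).card → ¬ Bad κ s →
    ((Finset.univ.filter fun v => v ∉ RS i o e s ∅).card : ℝ) ≤
      (1 + κ) * n - (Finset.univ.filter fun v => o v = i).card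

open Classical in
/-- **CNA** (40). Fixed `A` and `Z`: the number of the `s` such that all successors of the vertices of
`A` are in `Z` is `|Z| ^ (d |A|) * n ^ (d (n - |A|))`.  (`Fintype.card_pi`-type count:
`Fintype.piFinset`.) -/
def CNAStmt : Prop :=
  ∀ (n d : ℕ) (A Z : Finset (Fin n)),
    (Finset.univ.filter fun s : Fin n → Fin d → Fin n => ∀ v ∈ A, ∀ j, s v j ∈ Z).card =
      Z.card ^ (d * A.card) * n ^ (d * (n - A.card))

open Classical in
/-- **CNB** (50, needs CNA). The number of bad graphs: sum over the `2 ^ n * 2 ^ n` pairs `(A, Z)`,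
each at most `(|Z| / n) ^ (d |A|) n ^ (d n) ≤ exp (- κ (κ n) d) n ^ (d n)` by `1 - κ ≤ exp (-κ)`. -/
def CNBStmt : Prop :=
  ∀ (n d : ℕ) (κ : ℝ), 0 < κ → κ ≤ 1 → 0 < n →
    ((Finset.univ.filter fun s : Fin n → Fin d → Fin n => Bad κ s).card : ℝ) ≤
      (4 * Real.exp (-(κ ^ 2 * d))) ^ n * (n : ℝ) ^ (d * n)

open Classical in
/-- **CNP** (50). Two counts of lists of `d` elements of `V`, `X` = the allowed elements, `Y` a
set: one element in `Y` (choose its place), two elements in `Y` (choose the places). -/
def CNPStmt : Prop :=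
  ∀ (V : Type) [Fintype V] [DecidableEq V] (d : ℕ) (X Y : Finset V),
    (Finset.univ.filter fun t : Fin d → V => (∀ j, t j ∈ X) ∧ ∃ j, t j ∈ Y).card ≤
      d * Y.card * X.card ^ (d - 1) ∧
    (Finset.univ.filter fun t : Fin d → V => (∀ j, t j ∈ X) ∧
      ∃ j k, j ≠ k ∧ t j ∈ Y ∧ t k ∈ Y).card ≤ d ^ 2 * Y.card ^ 2 * X.card ^ (d - 2)

open Classical in
/-- **FUB** (80). Counting functions by their values outside of `W` and in `W`.  Let `P f` be a
condition on `f`; suppose that for every `f₀` with `P f₀` there are sets `T v` (`v ∈ W`) and a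
`v₀`-indexed family such that every `f` with `P f` which agrees with `f₀` outside of `W` satisfies:
`f v ∈ T v` for all `v ∈ W`, and `f v₀ ∈ T' v₀` for some `v₀ ∈ W`, with `|T v| ≤ a`, `|T' v| ≤ b`.
Then the number of the `f` with `P f` is at most `N ^ (|V| - |W|) * (|W| * b * a ^ (|W| - 1))`,
`N = |X|`.  (Fibres of the restriction to the complement of `W`; each nonempty fibre is contained in
the union over `v₀ ∈ W` of a product.) -/
def FUBStmt : Prop :=
  ∀ (V X : Type) [Fintype V] [DecidableEq V] [Fintype X] [DecidableEq X] (W : Finset V)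
    (P : (V → X) → Prop) (a b : ℕ),
    (∀ f₀ : V → X, P f₀ → ∃ T T' : V → Finset X, (∀ v ∈ W, (T v).card ≤ a ∧ (T' v).card ≤ b) ∧
      ∀ f : V → X, P f → (∀ v ∉ W, f v = f₀ v) →
        (∀ v ∈ W, f v ∈ T v) ∧ ∃ v₀ ∈ W, f v₀ ∈ T' v₀) →
    (Finset.univ.filter fun f : V → X => P f).card ≤
      Fintype.card X ^ (Fintype.card V - W.card) * (W.card * b * a ^ (W.card - 1))

open Classical in
/-- **CNU** (100, needs RCL, RLC, RRE, CNP, FUB). A fixed set `W` (= the vertices which are left).
Condition `P s`: `Lf o e s = W`, the complement of `RS (o v) .. ∅` has at most `r` elements for all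
`v ∈ W`, and the algorithm fails.  By `RRE` the attractors are those outside of `W`, so by `RLC` they
are the same for all `s` of the fibre (`FUB` with `X = Fin d → Fin n`, `f₀ = s₀`).  `T v` = the lists
`t` without element in `RS (o v) .. W` and with an element in `W`; `T' v` = the same with elements in
`W` at two different places.  (`v ∈ W` owned by `i` is in neither attractor: no successor in `RS i`
(`Pre`), and not all successors in `RS (!i)`, so one in `Lf = W`.) -/
def CNUStmt : Prop :=
  ∀ (n d r : ℕ) (o e : Fin n → Bool) (W : Finset (Fin n)),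
    (Finset.univ.filter fun s : Fin n → Fin d → Fin n => Lf o e s = (W : Set (Fin n)) ∧
      (∀ v ∈ W, (Finset.univ.filter fun w => w ∉ RS (o v) o e s ∅).card ≤ r) ∧
      Fail o e s).card ≤
      (n ^ d) ^ (n - W.card) *
        (W.card * (d ^ 2 * W.card ^ 2 * r ^ (d - 2)) * (d * W.card * r ^ (d - 1)) ^ (W.card - 1))

/-- **SUM** (80). The sum over the sets: for `1 ≤ n`, `r ≤ ρ n`, `3 ≤ d`, `6 d ρ ^ (d - 1) ≤ 1`,
`0 < ρ ≤ 1`.  (The term for `u`: `C(n, u) ≤ n ^ u / u!` and `u ^ u / u! ≤ exp u ≤ 3 ^ u` give
`≤ 3 ^ u (u ^ 2 / n) d ^ 2 ρ ^ (d - 2) (d ρ ^ (d - 1)) ^ (u - 1) n ^ (d n) ≤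
(3 u ^ 2 d ^ 2 / n) 2 ^ (1 - u) n ^ (d n)`, and `∑ u ^ 2 2 ^ (1 - u) ≤ 12`.) -/
def SUMStmt : Prop :=
  ∀ (n d r : ℕ) (ρ : ℝ), 1 ≤ n → 3 ≤ d → 0 < ρ → ρ ≤ 1 → (r : ℝ) ≤ ρ * n →
    6 * d * ρ ^ (d - 1) ≤ 1 →
    (n : ℝ) * ∑ u ∈ Finset.Icc 1 n, (n.choose u : ℝ) * (((n : ℝ) ^ d) ^ (n - u) *
      (u * (d ^ 2 * u ^ 2 * (r : ℝ) ^ (d - 2)) * (d * u * (r : ℝ) ^ (d - 1)) ^ (u - 1))) ≤
      36 * d ^ 2 * (n : ℝ) ^ (d * n)

/-- **NUM** (60). Numbers: `δ ≤ 1 / 2`, `14 ≤ δ ^ 2 d`, `κ = 8 δ / 25`, `ρ = 1 - 17 δ / 25`.
(`κ ^ 2 d ≥ 896 / 625 > log 4`.  `ρ ^ (d - 1) ≤ exp (- (17 / 25) δ (d - 1))`, `δ d ≥ 28`,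
`d ≤ (δ d) ^ 2 / 14`.) -/
def NUMStmt : Prop :=
  ∀ (δ : ℝ) (d : ℕ), 0 < δ → δ ≤ 1 / 2 → 14 ≤ δ ^ 2 * d →
    56 ≤ d ∧ 4 * Real.exp (-((8 * δ / 25) ^ 2 * d)) < 1 ∧ 0 < 1 - 17 * δ / 25 ∧
    6 * d * (1 - 17 * δ / 25) ^ (d - 1) ≤ 1

open Classical in
/-- **CNT** (100, needs LRG, CNB, CNU, SUM, NUM). The number of failures.  (`δ ≤ 1 / 2` if `n ≥ 1`, as
the two sets are disjoint.  For `n ≥ 50 / δ`: `3 κ n + 2 ≤ δ n`.  A failure is bad (`CNB`: `x ^ n` with
`x < 1`, and `n x ^ n` is bounded), or `LRG` holds for both `i` and then, for `W = Lf o e s`, which is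
not empty, `|complement of RS (o v)| ≤ (1 + κ - δ) n = ρ n`: `CNU` with `r = ⌊ρ n⌋`, summed over all
`W` by their size (`Finset.powersetCard`).  For `n < 50 / δ` the constant is at least `50 / δ`.) -/
def CNTStmt : Prop :=
  ∀ (δ : ℝ) (d : ℕ), 0 < δ → 14 ≤ δ ^ 2 * d → ∃ C : ℝ, 0 ≤ C ∧
    ∀ (n : ℕ) (o e : Fin n → Bool),
      (∀ i : Bool, δ * n ≤ (Finset.univ.filter fun v => o v = i ∧ e v = i).card) →
      (n : ℝ) * (Finset.univ.filter fun s : Fin n → Fin d → Fin n => Fail o e s).card ≤
        C * (n : ℝ) ^ (d * n)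

open Classical in
/-- **MAI** (40, needs SND, PTM, CMB, CNT and `BOTStmt`, `CMWStmt` of `Pool.PG`). The theorem, with
`A g = lab (cmp g)`. -/
def MAIStmt : Prop :=
  ∃ A : Game → List Bool, N68a2faeb.IsPolyTime A ∧
    (∀ g : Game, Valid g → A g ≠ [] → (A g).length = g.length ∧
      ∀ v < g.length, Win g ((A g).getD v false) v) ∧
    ∀ (δ : ℝ) (d : ℕ), 0 < δ → 14 ≤ δ ^ 2 * d → ∃ C : ℝ, ∀ (n : ℕ) (o : Fin n → Bool)
      (p : Fin n → ℕ),
      δ * n ≤ (Finset.univ.filter fun v => o v = true ∧ Even (p v)).card →
      δ * n ≤ (Finset.univ.filter fun v => o v = false ∧ Odd (p v)).card →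
      (n : ℝ) * (Finset.univ.filter fun s : Fin n → Fin d → Fin n =>
        A (arena o p s) = []).card ≤ C * (n : ℝ) ^ (d * n)

end Pool.RPG
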